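import Pool.Agent.H13.LinSpace

set_option autoImplicit false

namespace Pool.Agent.Results.MP_8b0535_co.NoneAdmissible

open Filter Topology

/-- A sequence of bipartite graphs with parts A_m = Fin m and B_m a finite set of naturals, given by
the neighbourhoods N m u of the vertices u of A_m, is admissible for b. -/
def Admissible (b : ℕ → ℝ) (N : (m : ℕ) → Fin m → Finset ℕ) : Prop :=
  (∀ ε : ℝ, 0 < ε → ∀ᶠ m in atTop, ∀ u : Fin m, |((N m u).card : ℝ) / m - 1| ≤ ε) ∧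
  (∀ ε : ℝ, 0 < ε → ∀ᶠ m in atTop, ∀ u v : Fin m, u ≠ v →
    |((N m u ∩ N m v).card : ℝ) / b m - 1| ≤ ε) ∧
  (∀ᶠ m in atTop, ∀ u v w : Fin m, u ≠ v → u ≠ w → v ≠ w →
    (N m u ∩ N m v ∩ N m w).card = 1)

theorem result (b : ℕ → ℝ) (hpos : ∀ m, 0 < b m) (hinf : Tendsto b atTop atTop)
    (hsmall : Tendsto (fun m : ℕ => b m / Real.sqrt m) atTop (𝓝 0)) :
    ¬ ∃ N : (m : ℕ) → Fin m → Finset ℕ, Admissible b N := by
  rintro ⟨N, h1, h2, h3⟩
  have e1 := h1 (1 / 2) (by norm_num)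
  have e2 := h2 (1 / 2) (by norm_num)
  have e4 := hinf.eventually_ge_atTop 8
  have e5 := hsmall.eventually (gt_mem_nhds (show (0 : ℝ) < 1 / 2 by norm_num))
  obtain ⟨m, ⟨⟨⟨⟨k1, k2⟩, k3⟩, k4⟩, k5⟩, k6⟩ :=
    (((((e1.and e2).and h3).and e4).and e5).and (eventually_ge_atTop 10)).exists
  have hm : (10 : ℝ) ≤ m := by exact_mod_cast k6
  have hb := hpos m
  have hs : 0 < Real.sqrt m := Real.sqrt_pos.2 (by linarith)
  rw [div_lt_iff₀ hs] at k5
  have hsq : Real.sqrt m * Real.sqrt m = m := Real.mul_self_sqrt (by linarith)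
  have hfl : ((⌊3 / 2 * b m⌋₊ : ℕ) : ℝ) ≤ 3 / 2 * b m := Nat.floor_le (by positivity)
  refine Pool.Agent.H13.LinSpace.core (N m) ⌊3 / 2 * b m⌋₊ (2 * m) ?_ ?_ ?_ k3 ?_ (by omega)
  · intro u
    have := (abs_le.1 (k1 u)).2
    rw [sub_le_iff_le_add, div_le_iff₀ (by linarith)] at this
    have h : ((N m u).card : ℝ) ≤ 2 * m := by linarith
    exact_mod_cast h
  · intro u v huv
    have := (abs_le.1 (k2 u v huv)).1
    rw [le_sub_iff_add_le, le_div_iff₀ hb] at this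
    have h : (4 : ℝ) ≤ (N m u ∩ N m v).card := by linarith
    exact_mod_cast h
  · intro u v huv
    have := (abs_le.1 (k2 u v huv)).2
    rw [sub_le_iff_le_add, div_le_iff₀ hb] at this
    apply Nat.le_floor
    linarith
  · have h0 : (0 : ℝ) ≤ (⌊3 / 2 * b m⌋₊ : ℕ) := Nat.cast_nonneg _
    have h : ((⌊3 / 2 * b m⌋₊ : ℕ) : ℝ) * (⌊3 / 2 * b m⌋₊ : ℕ) + 2 < m := by nlinarith
    exact_mod_cast h

end Pool.Agent.Results.MP_8b0535_co.NoneAdmissible
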